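import Pool.Agent.TH648.SH.Arb
import Pool.Agent.TH603.Sur.Main

/-! General points of the plane, arbitrary multiplicities: the two ranges. -/

namespace Pool.Agent.TH648.SH

open Finset Pool.Agent.TH176.Nag Pool.Agent.TH603.Sur Pool.Agent.H932R3

/-- the emptiness range -/
def Above {n : ℕ} (w : Fin n → ℕ) (d : ℕ) : Prop :=
  ∃ S : Finset (Fin n), S.card ≤ 8 ∧ ∃ K : ℝ, 9 - (S.card : ℝ) ≤ K ∧
    ∀ k : ℕ, K * k ≤ 3 * d - ((∑ i ∈ S, w i : ℕ) : ℝ) →
      K * (3 * d - ((∑ i ∈ S, w i : ℕ) : ℝ) - K * k) <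
        (9 - (S.card : ℝ)) * ((∑ i ∈ univ \ S, (w i - k) : ℕ) : ℝ)

/-- the independence range -/
def Below {n : ℕ} (w : Fin n → ℕ) (d : ℕ) : Prop :=
  ∃ r : ℝ, 3 ≤ r ∧ ∀ k : ℕ, (∃ i, k < w i) →
    ((∑ i, (w i - k) : ℕ) : ℝ) + r ^ 2 * (k + 1) < r * (d + 3)

theorem Above.le {n : ℕ} {w : Fin n → ℕ} {d : ℕ} (h : Above w d) : d ≤ ∑ i, w i := by
  obtain ⟨S, hS, K, hK, h⟩ := h
  have hS8 : (S.card : ℝ) ≤ 8 := by exact_mod_cast hS
  have hsum : ∑ i ∈ univ \ S, w i + ∑ i ∈ S, w i = ∑ i, w i :=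
    sum_sdiff (subset_univ S)
  have h0 := h 0
  rcases lt_or_ge (3 * (d : ℝ)) ((∑ i ∈ S, w i : ℕ) : ℝ) with h1 | h1
  · have h2 : 3 * d < ∑ i ∈ S, w i := by exact_mod_cast h1
    omega
  · have h2 := h0 (by push_cast at h1 ⊢; linarith)
    simp only [Nat.cast_zero, mul_zero, sub_zero, Nat.sub_zero] at h2
    have hσ : 0 < 9 - (S.card : ℝ) := by linarith
    have h3 : (9 - (S.card : ℝ)) * (3 * d - ((∑ i ∈ S, w i : ℕ) : ℝ)) ≤
        K * (3 * d - ((∑ i ∈ S, w i : ℕ) : ℝ)) :=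
      mul_le_mul_of_nonneg_right hK (by linarith)
    have h4 := lt_of_mul_lt_mul_left (lt_of_le_of_lt h3 h2) hσ.le
    have h5 : (3 * d : ℝ) < ((∑ i ∈ univ \ S, w i : ℕ) : ℝ) + ((∑ i ∈ S, w i : ℕ) : ℝ) := by
      linarith
    have h6 : 3 * d < ∑ i ∈ univ \ S, w i + ∑ i ∈ S, w i := by exact_mod_cast h5
    omega

theorem Above.emp {n : ℕ} {w : Fin n → ℕ} {d : ℕ} (h : Above w d) : Emp w (TZ d) := by
  classical
  obtain ⟨S, hS, K, hK, h⟩ := h
  let e : Fin S.card ≃ S := S.equivFin.symm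
  have h1 : Emp (Sum.elim (fun j : Fin S.card => w (e j)) (fun i : {i // i ∈ univ \ S} => w i))
      (TZ d) := by
    refine Emp_arb hS _ hK ?_
    have e1 : ∑ j : Fin S.card, w (e j) = ∑ i ∈ S, w i := by
      rw [← Finset.sum_coe_sort S w]
      exact Equiv.sum_comp e (fun i : S => w i)
    intro k hk
    rw [e1] at hk ⊢
    have h2 := h k hk
    have e2 : ∑ i : {i // i ∈ univ \ S}, (w i - k) = ∑ i ∈ univ \ S, (w i - k) :=
      Finset.sum_coe_sort (univ \ S) fun i => w i - k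
    rw [e2]
    exact h2
  refine Emp_emb (Sum.elim (fun j : Fin S.card => ((e j : S) : Fin n))
    (fun i : {i // i ∈ univ \ S} => (i : Fin n))) ?_ ?_ h1
  · rintro (j | i) (j' | i') hij
    · simp only [Sum.elim_inl] at hij
      rw [e.injective (Subtype.ext hij)]
    · simp only [Sum.elim_inl, Sum.elim_inr] at hij
      exfalso
      have h3 := (e j).2
      rw [hij] at h3
      exact (mem_sdiff.1 i'.2).2 h3
    · simp only [Sum.elim_inl, Sum.elim_inr] at hij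
      exfalso
      have h3 := (e j').2
      rw [← hij] at h3
      exact (mem_sdiff.1 i.2).2 h3
    · simp only [Sum.elim_inr] at hij
      rw [Subtype.ext hij]
  · rintro (j | i)
    · exact le_rfl
    · exact le_rfl

theorem Below.sur {n : ℕ} {w : Fin n → ℕ} {d : ℕ} (h : Below w d) : Sur w (TZ d) := by
  obtain ⟨r, hr, h⟩ := h
  exact Sur_plane hr h

/-- the emptiness range contains the classes of negative degree on the nef classes
`√N (3 H - ∑_S E i) - √(9 - |S|) ∑_T E i`, `N = |T|` -/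
theorem above_of_sets {n : ℕ} {w : Fin n → ℕ} {d : ℕ} {S T : Finset (Fin n)} (hST : Disjoint S T)
    (hS : S.card ≤ 8) (hT : 9 ≤ S.card + T.card)
    (h : √(T.card : ℝ) * (3 * d - ∑ i ∈ S, (w i : ℝ)) < √(9 - (S.card : ℝ)) * ∑ i ∈ T, (w i : ℝ)) :
    Above w d := by
  have hS8 : (S.card : ℝ) ≤ 8 := by exact_mod_cast hS
  have hT9 : (9 : ℝ) ≤ S.card + T.card := by exact_mod_cast hT
  have hσ : 0 < 9 - (S.card : ℝ) := by linarith
  obtain ⟨σ, hσd⟩ : ∃ σ : ℝ, σ = 9 - (S.card : ℝ) := ⟨_, rfl⟩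
  obtain ⟨N, hNd⟩ : ∃ N : ℝ, N = (T.card : ℝ) := ⟨_, rfl⟩
  rw [← hσd, ← hNd] at h
  rw [← hσd] at hσ
  have hN : σ ≤ N := by rw [hσd, hNd]; linarith
  have hs1 : √σ * √σ = σ := Real.mul_self_sqrt hσ.le
  have hs2 : √N * √N = N := Real.mul_self_sqrt (by linarith)
  have hs0 : 0 < √σ := Real.sqrt_pos.2 hσ
  have hs3 : √σ ≤ √N := Real.sqrt_le_sqrt hN
  refine ⟨S, hS, √σ * √N, ?_, ?_⟩
  · rw [← hσd]
    nlinarith
  intro k _
  rw [← hσd]
  have h1 : ((∑ i ∈ T, w i : ℕ) : ℝ) ≤ ((∑ i ∈ univ \ S, (w i - k) : ℕ) : ℝ) + N * k := by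
    have h2 : ∑ i ∈ T, w i ≤ ∑ i ∈ univ \ S, (w i - k) + T.card * k := by
      have e1 : T.card * k = ∑ _i ∈ T, k := by simp
      have h3 : ∑ i ∈ T, (w i - k) ≤ ∑ i ∈ univ \ S, (w i - k) := by
        apply sum_le_sum_of_subset
        intro i hi
        exact mem_sdiff.2 ⟨mem_univ i, fun hi' => (Finset.disjoint_left.1 hST hi') hi⟩
      have h4 : ∑ i ∈ T, w i ≤ ∑ i ∈ T, (w i - k) + ∑ _i ∈ T, k := by
        rw [← sum_add_distrib]
        exact sum_le_sum fun i _ => by omega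
      omega
    rw [hNd]
    exact_mod_cast h2
  push_cast at h1 ⊢
  have h5 : √σ * (√N * (3 * d - ∑ i ∈ S, (w i : ℝ))) < √σ * (√σ * ∑ i ∈ T, (w i : ℝ)) :=
    mul_lt_mul_of_pos_left h hs0
  have h6 : √σ * (√σ * ∑ i ∈ T, (w i : ℝ)) = σ * ∑ i ∈ T, (w i : ℝ) := by
    rw [← mul_assoc, hs1]
  have h7 : √σ * √N * (3 * d - ∑ i ∈ S, (w i : ℝ) - √σ * √N * k) =
      √σ * (√N * (3 * d - ∑ i ∈ S, (w i : ℝ))) - σ * (N * k) := by
    linear_combination (-(N * k)) * hs1 - (√σ * √σ * k) * hs2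
  rw [h7]
  have h8 : σ * ∑ i ∈ T, (w i : ℝ) ≤
      σ * (((∑ i ∈ univ \ S, (w i - k) : ℕ) : ℝ) + N * k) :=
    mul_le_mul_of_nonneg_left (by push_cast; exact h1) hσ.le
  push_cast at h8
  rw [mul_add] at h8
  linarith

/-- the independence range in terms of the sum, the maximum and the number of maximal
multiplicities -/
theorem below_of_max {n : ℕ} {w : Fin n → ℕ} {d M : ℕ} {r : ℝ} (hr : 3 ≤ r) (hM : ∀ i, w i ≤ M)
    (h0 : ∑ i, (w i : ℝ) + r ^ 2 < r * (d + 3))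
    (h1 : ((univ.filter fun i => w i = M).card : ℝ) + r ^ 2 * M < r * (d + 3)) : Below w d := by
  refine ⟨r, hr, ?_⟩
  rintro k ⟨i0, hi0⟩
  have hkM : k < M := lt_of_lt_of_le hi0 (hM i0)
  rcases Nat.eq_zero_or_pos k with hk | hk
  · subst hk
    push_cast
    simp only [Nat.sub_zero, zero_add, mul_one]
    exact h0
  · -- convexity
    have hterm : ∀ i, (((w i - k : ℕ) : ℝ)) * (M - 1) ≤ (M - 1 - k) * (w i : ℝ) +
        k * (if w i = M then (1 : ℝ) else 0) := by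
      intro i
      have hkR : (0 : ℝ) < k := by exact_mod_cast hk
      have hkM' : (k : ℝ) + 1 ≤ M := by exact_mod_cast hkM
      have hwi : (w i : ℝ) ≤ M := by exact_mod_cast hM i
      split_ifs with he
      · have e1 : ((w i - k : ℕ) : ℝ) = (M : ℝ) - k := by
          rw [he, Nat.cast_sub hkM.le]
        rw [e1, he]
        nlinarith
      · have hlt : w i + 1 ≤ M := by
          have := hM i
          omega
        have hltR : (w i : ℝ) + 1 ≤ M := by exact_mod_cast hlt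
        rcases le_or_gt (w i) k with hle | hgt
        · have e1 : ((w i - k : ℕ) : ℝ) = 0 := by
            rw [Nat.sub_eq_zero_of_le hle]; simp
          rw [e1]
          have : (0 : ℝ) ≤ w i := Nat.cast_nonneg _
          nlinarith [mul_nonneg (show (0 : ℝ) ≤ (M : ℝ) - 1 - k by linarith) this]
        · have e1 : ((w i - k : ℕ) : ℝ) = (w i : ℝ) - k := by
            rw [Nat.cast_sub hgt.le]
          rw [e1]
          nlinarith [mul_nonneg hkR.le (show (0 : ℝ) ≤ (M : ℝ) - 1 - w i by linarith)]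
    have hsum : ((∑ i, (w i - k) : ℕ) : ℝ) * (M - 1) ≤ (M - 1 - k) * ∑ i, (w i : ℝ) +
        k * ((univ.filter fun i => w i = M).card : ℝ) := by
      have h3 := sum_le_sum fun i (_ : i ∈ (univ : Finset (Fin n))) => hterm i
      rw [sum_add_distrib, ← mul_sum, ← mul_sum, ← sum_mul, Finset.sum_boole] at h3
      push_cast
      exact h3
    have hkM' : (k : ℝ) + 1 ≤ M := by exact_mod_cast hkM
    have hkR : (1 : ℝ) ≤ k := by exact_mod_cast hk
    have hM1 : (0 : ℝ) < (M : ℝ) - 1 := by linarith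
    have h4 : (((∑ i, (w i - k) : ℕ) : ℝ) + r ^ 2 * (k + 1)) * (M - 1) < r * (d + 3) * (M - 1) := by
      have h5 : (M - 1 - k) * (∑ i, (w i : ℝ) + r ^ 2) ≤ (M - 1 - k) * (r * (d + 3)) :=
        mul_le_mul_of_nonneg_left h0.le (by linarith)
      have h6 : k * (((univ.filter fun i => w i = M).card : ℝ) + r ^ 2 * M) < k * (r * (d + 3)) :=
        mul_lt_mul_of_pos_left h1 (by linarith)
      nlinarith
    exact lt_of_mul_lt_mul_right h4 hM1.le

/-- **arbitrary multiplicities at general points** -/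
theorem expDim_arb {n : ℕ} (w : Fin n → ℕ) :
    ∃ F : MvPolynomial (Fin n × Fin 2) ℚ, F ≠ 0 ∧ ∀ {L : Type} [Field L] [CharZero L]
      (P : Fin n → Fin 2 → L), MvPolynomial.aeval (fun ij : Fin n × Fin 2 => P ij.1 ij.2) F ≠ 0 →
      ∀ d, (Above w d ∨ Below w d) → ExpDim L w P d :=
  expDim_two (A := Above w) (B := Below w) (∑ i, w i) (fun _ h => Above.le h)
    (fun _ h => Above.emp h) (fun _ h => Below.sur h)

end Pool.Agent.TH648.SH
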