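import Pool.Agent.TH648.SH.Smooth
import Pool.Agent.H248R6.Open

/-! Smooth general members already in (almost) the independence range. -/

namespace Pool.Agent.TH648.SH

open Finset Pool.Agent.TH176.Nag Pool.Agent.TH603.Sur Pool.Agent.H932R2 Pool.Agent.H932R3
  Pool.Agent.H248R5

/-- the smooth range -/
def BelowS {n : ℕ} (w : Fin n → ℕ) (d : ℕ) : Prop :=
  ∃ (r : ℝ) (M : ℕ), 3 ≤ r ∧ (∀ i, w i ≤ M) ∧ ∑ i, (w i : ℝ) + 1 + r ^ 2 < r * (d + 3) ∧
    1 + r ^ 2 * (M + 1) < r * (d + 3)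

theorem Below.of_le {n : ℕ} {w w' : Fin n → ℕ} {d : ℕ} (hw : ∀ i, w i ≤ w' i) (h : Below w' d) :
    Below w d := by
  obtain ⟨r, hr, h⟩ := h
  refine ⟨r, hr, fun k hk => ?_⟩
  obtain ⟨i, hi⟩ := hk
  have h1 := h k ⟨i, lt_of_lt_of_le hi (hw i)⟩
  have h2 : ((∑ i, (w i - k) : ℕ) : ℝ) ≤ ((∑ i, (w' i - k) : ℕ) : ℝ) := by
    exact_mod_cast sum_le_sum fun i _ => Nat.sub_le_sub_right (hw i) k
  linarith

theorem Below.succ {n : ℕ} {w : Fin n → ℕ} {d : ℕ} (h : Below w d) : Below w (d + 1) := by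
  obtain ⟨r, hr, h⟩ := h
  refine ⟨r, hr, fun k hk => ?_⟩
  have h1 := h k hk
  have e1 : ((d + 1 : ℕ) : ℝ) = d + 1 := by push_cast; ring
  rw [e1]
  nlinarith

theorem Below.up {n : ℕ} {w : Fin n → ℕ} {d d' : ℕ} (h : Below w d) (hd : d ≤ d') :
    Below w d' := by
  induction d', hd using Nat.le_induction with
  | base => exact h
  | succ d' _ ih => exact Below.succ ih

theorem Below.pred {n : ℕ} {w : Fin n → ℕ} {e : ℕ} (h : Below w (e + 1)) :
    Below (fun i => w i - 1) e := by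
  obtain ⟨r, hr, h⟩ := h
  refine ⟨r, hr, fun k hk => ?_⟩
  obtain ⟨i, hi⟩ := hk
  have hi' : k < w i - 1 := hi
  have h1 := h (k + 1) ⟨i, by omega⟩
  have h2 : ∑ i, (w i - 1 - k) = ∑ i, (w i - (k + 1)) := by
    refine sum_congr rfl fun i _ => ?_
    omega
  rw [h2]
  push_cast at h1 ⊢
  nlinarith

theorem sum_update {n : ℕ} (w : Fin n → ℕ) (k : Fin n) :
    ∑ i, ((Function.update w k (w k + 1) i : ℕ) : ℝ) = ∑ i, (w i : ℝ) + 1 := by
  have h1 : ∀ i, ((Function.update w k (w k + 1) i : ℕ) : ℝ) = w i + if i = k then 1 else 0 := by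
    intro i
    by_cases hi : i = k
    · subst hi
      rw [Function.update_self, if_pos rfl]
      push_cast
      ring
    · rw [Function.update_of_ne hi, if_neg hi, add_zero]
  rw [sum_congr rfl fun i _ => h1 i, sum_add_distrib, sum_ite_eq', if_pos (mem_univ k)]

theorem BelowS.upd {n : ℕ} {w : Fin n → ℕ} {d : ℕ} (h : BelowS w d) (k : Fin n) :
    Below (Function.update w k (w k + 1)) d := by
  obtain ⟨r, M, hr, hM, h1, h2⟩ := h
  refine below_of_max (M := M + 1) hr ?_ ?_ ?_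
  · intro i
    by_cases hi : i = k
    · subst hi
      rw [Function.update_self]
      exact Nat.succ_le_succ (hM i)
    · rw [Function.update_of_ne hi]
      exact (hM i).trans (Nat.le_succ M)
  · rw [sum_update]
    exact h1
  · have h3 : (univ.filter fun i => Function.update w k (w k + 1) i = M + 1).card ≤ 1 := by
      refine Finset.card_le_one.2 ?_
      have key : ∀ i, Function.update w k (w k + 1) i = M + 1 → i = k := by
        intro i hi
        by_contra hne
        rw [Function.update_of_ne hne] at hi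
        have := hM i
        omega
      intro a ha b hb
      rw [mem_filter] at ha hb
      rw [key a ha.2, key b hb.2]
    have h4 : ((univ.filter fun i => Function.update w k (w k + 1) i = M + 1).card : ℝ) ≤ 1 := by
      exact_mod_cast h3
    push_cast at h2 ⊢
    linarith

theorem BelowS.below {n : ℕ} {w : Fin n → ℕ} {d : ℕ} (h : BelowS w d) : Below w d := by
  rcases n with _ | n
  · refine ⟨3, le_rfl, ?_⟩
    rintro k ⟨i, -⟩
    exact i.elim0
  · refine Below.of_le (fun i => ?_) (BelowS.upd h 0)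
    by_cases hi : i = 0
    · subst hi
      rw [Function.update_self]
      exact Nat.le_succ _
    · rw [Function.update_of_ne hi]

theorem BelowS.pos {n : ℕ} {w : Fin n → ℕ} {d : ℕ} (h : BelowS w d) : 0 < d := by
  obtain ⟨r, M, hr, hM, h1, h2⟩ := h
  rcases Nat.eq_zero_or_pos d with h0 | h0
  · exfalso
    subst h0
    have h3 : (0 : ℝ) ≤ ∑ i, (w i : ℝ) := sum_nonneg fun i _ => Nat.cast_nonneg _
    push_cast at h1
    nlinarith
  · exact h0

/-- independence at general points of any field of characteristic zero -/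
theorem surj_open {n : ℕ} {w : Fin n → ℕ} :
    ∃ F : MvPolynomial (Fin n × Fin 2) ℚ, F ≠ 0 ∧ ∀ {L : Type} [Field L] [CharZero L]
      (P : Fin n → Fin 2 → L), MvPolynomial.aeval (fun ij : Fin n × Fin 2 => P ij.1 ij.2) F ≠ 0 →
      ∀ d, Below w d → Function.Surjective (ev w P d) := by
  obtain ⟨F, hF, hF'⟩ := expDim_arb w
  refine ⟨F, hF, fun {L} _ _ P hP d hd => surj_of_ind ?_⟩
  have h3 : Module.finrank L ↥(forms w P d) = (d + 2).choose 2 - ∑ i, (w i + 1).choose 2 :=
    hF' P hP d (Or.inr hd)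
  have h4 := cond_le (Below.sur hd)
  omega

theorem aeval_ne_of_ind {n : ℕ} {F : MvPolynomial (Fin n × Fin 2) ℚ} (hF : F ≠ 0) {L : Type}
    [Field L] [CharZero L] {P : Fin n → Fin 2 → L}
    (hP : AlgebraicIndependent ℚ (fun ij : Fin n × Fin 2 => P ij.1 ij.2)) :
    MvPolynomial.aeval (fun ij : Fin n × Fin 2 => P ij.1 ij.2) F ≠ 0 := by
  intro h
  apply hF
  exact (algebraicIndependent_iff.1 hP) F h

/-- smooth general members in one degree -/
theorem smooth_one {n : ℕ} {w : Fin n → ℕ} {d : ℕ} (h : BelowS w d) :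
    ∃ F : MvPolynomial (Fin n × Fin 2) ℚ, F ≠ 0 ∧ ∀ P : Fin n → Fin 2 → ℂ,
      MvPolynomial.aeval (fun ij : Fin n × Fin 2 => P ij.1 ij.2) F ≠ 0 →
        GeneralMember (forms w P d) (SmoothMember w P) := by
  classical
  obtain ⟨e, rfl⟩ : ∃ e, d = e + 1 := ⟨d - 1, by have := BelowS.pos h; omega⟩
  choose G hG hG' using fun k : Fin n => surj_open (w := Function.update w k (w k + 1))
  obtain ⟨G0, hG0, hG0'⟩ := surj_open (w := w)
  obtain ⟨G1, hG1, hG1'⟩ := surj_open (w := fun i => w i - 1)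
  obtain ⟨F, hF, hF'⟩ := Pool.Agent.H248R6.open_main (K := ℂ) (n := n) (e := e) (w := w)
    (fun L _ _ P hP => ⟨fun k => hG' k P (aeval_ne_of_ind (hG k) hP) _ (BelowS.upd h k),
      hG0' P (aeval_ne_of_ind hG0 hP) _ (BelowS.below h),
      hG1' P (aeval_ne_of_ind hG1 hP) _ (Below.pred (BelowS.below h))⟩)
    ⟨(∏ k, G k) * G0, mul_ne_zero (Finset.prod_ne_zero_iff.2 fun k _ => hG k) hG0,
      fun P hP => by
        rw [map_mul, map_prod] at hP
        exact ⟨fun k => hG' k P (Finset.prod_ne_zero_iff.1 (left_ne_zero_of_mul hP) k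
          (Finset.mem_univ k)) _ (BelowS.upd h k),
          hG0' P (right_ne_zero_of_mul hP) _ (BelowS.below h)⟩⟩
  exact ⟨F, hF, fun P hP => (hF' P hP).2⟩

/-- **nonspecial systems with smooth general members, all numbers of points, all
multiplicities, in one open set for all degrees** -/
theorem smooth_all {n : ℕ} (w : Fin n → ℕ) :
    ∃ F : MvPolynomial (Fin n × Fin 2) ℂ, F ≠ 0 ∧ ∀ P : Fin n → Fin 2 → ℂ,
      MvPolynomial.eval (fun ij : Fin n × Fin 2 => P ij.1 ij.2) F ≠ 0 →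
      (∀ d, Above w d → forms w P d = ⊥) ∧
      (∀ d, Below w d →
        Module.finrank ℂ ↥(forms w P d) + ∑ i, (w i + 1).choose 2 = (d + 2).choose 2) ∧
      (∀ d, BelowS w d → GeneralMember (forms w P d) (SmoothMember w P)) := by
  classical
  obtain ⟨F, hF, hF'⟩ := smooth_arb w
  by_cases hex : ∃ d, BelowS w d
  · have h0 := Nat.find_spec hex
    obtain ⟨F2, hF2, hF2'⟩ := smooth_one h0
    refine ⟨F * F2.map (algebraMap ℚ ℂ), mul_ne_zero hF (map_ne_zero_of hF2), fun P hP => ?_⟩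
    rw [map_mul, MvPolynomial.eval_map] at hP
    obtain ⟨h1, h2, h3⟩ := hF' P (left_ne_zero_of_mul hP)
    refine ⟨h1, h2, fun d hd => ?_⟩
    rcases (Nat.find_min' hex hd).eq_or_lt with heq | hlt
    · rw [← heq]
      exact hF2' P (right_ne_zero_of_mul hP)
    · obtain ⟨e, rfl⟩ : ∃ e, d = e + 1 := ⟨d - 1, by omega⟩
      exact h3 e (Below.up (BelowS.below h0) (by omega))
  · refine ⟨F, hF, fun P hP => ?_⟩
    obtain ⟨h1, h2, h3⟩ := hF' P hP
    exact ⟨h1, h2, fun d hd => absurd ⟨d, hd⟩ hex⟩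

end Pool.Agent.TH648.SH
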