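import Pool.Agent.TH648.SH.Plane
import Pool.Agent.TH698.NagT3
import Pool.Agent.TH183.SC.Tri

/-! Absorbing points at the left corner of a triangle. -/

namespace Pool.Agent.TH648.SH

open Finset Pool.Agent.TH176.Nag Pool.Agent.TH603.Sur Pool.Agent.TH603.Cut Pool.Agent.TH181.NagM
open Filter Topology

theorem Reg_finite {α β μ ν : ℝ} (h : 0 < μ + ν) : (Reg α β μ ν).Finite := by
  -- bounded height
  have hH : ∀ m ∈ Reg α β μ ν, (m.2 : ℝ) ≤ (β - α) / (μ + ν) := by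
    rintro ⟨a, b⟩ ⟨h1, h2, h3⟩
    simp only at h1 h2 h3 ⊢
    rw [le_div_iff₀ h]
    linarith
  set H : ℤ := ⌊(β - α) / (μ + ν)⌋ with hHdef
  set A : ℝ := |α| + |μ| * |(β - α) / (μ + ν)| with hA
  set B : ℝ := |β| + |ν| * |(β - α) / (μ + ν)| with hB
  apply Set.Finite.subset (Set.finite_Icc ((⌊-A⌋, 0) : ℤ × ℤ) ((⌈B⌉, H) : ℤ × ℤ))
  intro m hm
  have h4 := hH m hm
  obtain ⟨h1, h2, h3⟩ := hm
  have h0 : (0 : ℝ) ≤ m.2 := by exact_mod_cast h1
  have habs : |(m.2 : ℝ)| ≤ |(β - α) / (μ + ν)| := by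
    rw [abs_of_nonneg h0]
    exact h4.trans (le_abs_self _)
  have e1 : -A ≤ m.1 := by
    have k1 : -(|μ| * |(β - α) / (μ + ν)|) ≤ μ * m.2 := by
      have k2 : |μ * m.2| ≤ |μ| * |(β - α) / (μ + ν)| := by
        rw [abs_mul]; exact mul_le_mul_of_nonneg_left habs (abs_nonneg _)
      have := neg_abs_le (μ * (m.2 : ℝ))
      linarith
    have k3 := neg_abs_le α
    rw [hA]
    linarith
  have e2 : (m.1 : ℝ) ≤ B := by
    have k1 : -(|ν| * |(β - α) / (μ + ν)|) ≤ ν * m.2 := by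
      have k2 : |ν * m.2| ≤ |ν| * |(β - α) / (μ + ν)| := by
        rw [abs_mul]; exact mul_le_mul_of_nonneg_left habs (abs_nonneg _)
      have := neg_abs_le (ν * (m.2 : ℝ))
      linarith
    have k3 := le_abs_self β
    rw [hB]
    linarith
  rw [Set.mem_Icc, Prod.mk_le_mk, Prod.mk_le_mk]
  refine ⟨⟨?_, h1⟩, ?_, ?_⟩
  · have := (Int.floor_le (-A)).trans e1
    exact_mod_cast this
  · have := e2.trans (Int.le_ceil B)
    exact_mod_cast this
  · exact Int.le_floor.2 h4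

/-- an integral direction separating two finite sets that are separated by a real line -/
theorem exists_dir {S T : Set (ℤ × ℤ)} (hS : S.Finite) (hT : T.Finite) (ρ : ℝ)
    (h : ∀ m ∈ S, ∀ m' ∈ T, (m.1 : ℝ) - ρ * m.2 < m'.1 - ρ * m'.2) :
    ∃ a b : ℤ, ∀ m ∈ S, ∀ m' ∈ T, a * m.1 + b * m.2 < a * m'.1 + b * m'.2 := by
  have hev : ∀ᶠ q in 𝓝 ρ, ∀ p ∈ (hS.toFinset ×ˢ hT.toFinset),
      (p.1.1 : ℝ) - q * p.1.2 < p.2.1 - q * p.2.2 := by
    rw [Filter.eventually_all_finset]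
    intro p hp
    rw [Finset.mem_product, Set.Finite.mem_toFinset, Set.Finite.mem_toFinset] at hp
    have h1 := h _ hp.1 _ hp.2
    have h2 : Filter.Tendsto (fun q : ℝ => (p.2.1 - q * p.2.2 : ℝ) - (p.1.1 - q * p.1.2)) (𝓝 ρ)
        (𝓝 ((p.2.1 - ρ * p.2.2 : ℝ) - (p.1.1 - ρ * p.1.2))) := by
      apply Continuous.tendsto
      fun_prop
    filter_upwards [h2.eventually (Ioi_mem_nhds (a := 0) (by linarith))] with q hq
    have hq' : (0 : ℝ) < (p.2.1 - q * p.2.2 : ℝ) - (p.1.1 - q * p.1.2) := hq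
    linarith
  obtain ⟨ε, hε, hball⟩ := Metric.eventually_nhds_iff.1 hev
  obtain ⟨q, hq1, hq2⟩ := exists_rat_btwn (show ρ < ρ + ε by linarith)
  have h3 := hball (y := (q : ℝ)) (by rw [Real.dist_eq, abs_of_pos (by linarith)]; linarith)
  refine ⟨q.den, -q.num, fun m hm m' hm' => ?_⟩
  have h4 := h3 (m, m') (by
    rw [Finset.mem_product, Set.Finite.mem_toFinset, Set.Finite.mem_toFinset]
    exact ⟨hm, hm'⟩)
  simp only at h4
  have hden : (0 : ℝ) < q.den := by exact_mod_cast q.den_pos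
  have hq : (q : ℝ) * q.den = q.num := by exact_mod_cast Rat.mul_den_eq_num q
  have h5 : ((q.den : ℤ) * m.1 + -q.num * m.2 : ℝ) < (q.den : ℤ) * m'.1 + -q.num * m'.2 := by
    have h6 := mul_lt_mul_of_pos_left h4 hden
    have e1 : (q.den : ℝ) * (m.1 - q * m.2) = (q.den : ℤ) * m.1 + -q.num * m.2 := by
      rw [← hq]; push_cast; ring
    have e2 : (q.den : ℝ) * (m'.1 - q * m'.2) = (q.den : ℤ) * m'.1 + -q.num * m'.2 := by
      rw [← hq]; push_cast; ring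
    rw [e1, e2] at h6
    exact h6
  exact_mod_cast h5

/-- a single point and rows of at most `v - y` exponents -/
theorem Emp_single {S : Set (ℤ × ℤ)} {v : ℕ}
    (hS : ∀ (y : ℤ) (B : Finset ℤ), (∀ b ∈ B, ((b, y) : ℤ × ℤ) ∈ S) → ∀ k : ℕ, k < B.card →
      0 ≤ y ∧ y + k < v) : Emp (fun _ : Unit => v) S := by
  have h1 : Emp (fun _ : Unit => v) {m : ℤ × ℤ | (m.2, m.1) ∈ S} := by
    refine Emp_flat0 (S' := Rws (fun _ : Unit => v) 0) ?_ (Emp_rows _ 0)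
    intro a B hB k hk
    obtain ⟨h2, h3⟩ := hS a B (fun b hb => hB b hb) k hk
    refine ⟨by simp, h2, ?_⟩
    simp only [Finset.univ_unique, Finset.sum_const, Finset.card_singleton, smul_eq_mul, one_mul,
      Int.toNat_natCast, zero_add]
    omega
  refine h1.comap 0 1 1 0 0 0 (by norm_num) ?_
  rintro ⟨a, b⟩ h
  simpa using h

/-- **absorbing a point at the left corner** -/
theorem Emp_absorb {ι : Type} [Finite ι] {w : ι → ℕ} {v : ℕ} {α β μ ν : ℝ} (hμν : 1 < μ + ν)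
    (h : Emp w (Reg (α + v) β (μ - 1) ν)) :
    Emp (Sum.elim (fun _ : Unit => v) w) (Reg α β μ ν) := by
  have hfin : (Reg α β μ ν).Finite := Reg_finite (by linarith)
  set A : Set (ℤ × ℤ) := {m | m ∈ Reg α β μ ν ∧ (m.1 : ℝ) < α + v + (μ - 1) * m.2} with hA
  set C : Set (ℤ × ℤ) := {m | m ∈ Reg α β μ ν ∧ α + v + (μ - 1) * m.2 ≤ (m.1 : ℝ)} with hC
  have hAC : Reg α β μ ν = A ∪ C := by
    ext m
    constructor
    · intro hm
      rcases lt_or_ge (m.1 : ℝ) (α + v + (μ - 1) * m.2) with h1 | h1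
      · exact Or.inl ⟨hm, h1⟩
      · exact Or.inr ⟨hm, h1⟩
    · rintro (hm | hm) <;> exact hm.1
  have hAf : A.Finite := hfin.subset fun m hm => hm.1
  have hCf : C.Finite := hfin.subset fun m hm => hm.1
  -- emptiness on the two pieces
  have hEC : Emp w C := by
    refine h.mono ?_
    rintro m ⟨⟨h1, h2, h3⟩, h4⟩
    exact ⟨h1, h4, h3⟩
  have hEA : Emp (fun _ : Unit => v) A := by
    apply Emp_single
    intro y B hB k hk
    have hne : B.Nonempty := card_pos.1 (by omega)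
    obtain ⟨b0, hb0⟩ := hne
    have hy : 0 ≤ y := (hB b0 hb0).1.1
    refine ⟨hy, ?_⟩
    have hsub : B ⊆ Finset.Ico ⌈α + μ * y⌉ (⌈α + μ * y⌉ + (v - y)) := by
      intro b hb
      obtain ⟨⟨h1, h2, h3⟩, h4⟩ := hB b hb
      simp only at h2 h3 h4
      rw [Finset.mem_Ico]
      refine ⟨Int.ceil_le.2 h2, ?_⟩
      have h5 : (b : ℝ) < (⌈α + μ * y⌉ : ℝ) + (v - y) := by
        have := Int.le_ceil (α + μ * (y : ℝ))
        linarith
      exact_mod_cast h5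
    have hcard := card_le_card hsub
    rw [Int.card_Ico] at hcard
    have e : ⌈α + μ * (y : ℝ)⌉ + (v - y) - ⌈α + μ * (y : ℝ)⌉ = v - y := by ring
    rw [e] at hcard
    omega
  -- translate into the first quadrant
  obtain ⟨N, hN⟩ : ∃ N : ℤ, ∀ m ∈ Reg α β μ ν, 0 ≤ m.1 + N := by
    obtain ⟨N, hN⟩ := (hfin.image (fun m : ℤ × ℤ => -m.1)).bddAbove
    exact ⟨N, fun m hm => by have := hN ⟨m, hm, rfl⟩; simp only at this; omega⟩
  obtain ⟨a, b, hab⟩ := exists_dir hAf hCf (μ - 1) (by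
    rintro m ⟨_, h1⟩ m' ⟨_, h2⟩
    linarith)
  set sh : ℤ × ℤ → ℤ × ℤ := fun m => (m.1 - N, m.2) with hsh
  have hshift : ∀ {κ : Type} {u : κ → ℕ} {S : Set (ℤ × ℤ)}, Emp u S →
      Emp u {m : ℤ × ℤ | ((m.1 - N, m.2) : ℤ × ℤ) ∈ S} := by
    intro κ u S hS
    refine hS.comap 1 0 0 1 (-N) 0 (by norm_num) ?_
    rintro ⟨p, q⟩ hpq
    have e : ((1 * p + 0 * q + -N, 0 * p + 1 * q + 0) : ℤ × ℤ) = (p - N, q) := by
      ext <;> simp; ring
    show (1 * p + 0 * q + -N, 0 * p + 1 * q + 0) ∈ S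
    rw [e]
    exact hpq
  have hinj : Function.Injective (fun m : ℤ × ℤ => ((m.1 - N, m.2) : ℤ × ℤ)) := by
    rintro ⟨p, q⟩ ⟨p', q'⟩ h
    simp only [Prod.mk.injEq] at h
    ext <;> simp <;> omega
  have key := Pool.Agent.TH698.NagT3.Emp_cut (S := {m : ℤ × ℤ | ((m.1 - N, m.2) : ℤ × ℤ) ∈ A})
    (T := {m : ℤ × ℤ | ((m.1 - N, m.2) : ℤ × ℤ) ∈ C}) (hAf.preimage hinj.injOn)
    (hCf.preimage hinj.injOn) (by
      rintro ⟨p, q⟩ hm
      have h1 := hN _ hm.1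
      have h2 := hm.1.1
      simp only at h1 h2
      exact ⟨by simp only; omega, h2⟩) (by
      rintro ⟨p, q⟩ hm
      have h1 := hN _ hm.1
      have h2 := hm.1.1
      simp only at h1 h2
      exact ⟨by simp only; omega, h2⟩) a b (by
      rintro ⟨p, q⟩ hm ⟨p', q'⟩ hm'
      have h1 := hab _ hm _ hm'
      simp only at h1 ⊢
      linarith) (hshift hEA) (hshift hEC)
  refine key.comap 1 0 0 1 N 0 (by norm_num) ?_
  rintro ⟨p, q⟩ hpq
  have e : ((1 * p + 0 * q + N - N, 0 * p + 1 * q + 0) : ℤ × ℤ) = (p, q) := by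
    ext <;> simp
  rw [hAC] at hpq
  rcases hpq with h1 | h1
  · left
    show (1 * p + 0 * q + N - N, 0 * p + 1 * q + 0) ∈ A
    rw [e]
    exact h1
  · right
    show (1 * p + 0 * q + N - N, 0 * p + 1 * q + 0) ∈ C
    rw [e]
    exact h1

end Pool.Agent.TH648.SH
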