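import Pool.Agent.TH648.SH.Main
import Pool.Agent.TH387.SH.Tr
import Pool.Agent.H248R5.Gen

/-! Smooth general members in the independence range. -/

namespace Pool.Agent.TH648.SH

open Finset Pool.Agent.TH176.Nag Pool.Agent.TH603.Sur Pool.Agent.H932R2 Pool.Agent.H932R3
  Pool.Agent.H248R5

theorem cond_le {n : ℕ} {w : Fin n → ℕ} {d : ℕ} (h : Sur w (TZ d)) :
    ∑ i, (w i + 1).choose 2 ≤ (d + 2).choose 2 := by
  obtain ⟨T, h1, h2, -⟩ := h
  have h3 : T ⊆ TH387.SH.TF d := by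
    intro p hp
    have : p ∈ (↑(TH387.SH.TF d) : Set (ℤ × ℤ)) := by
      rw [TH387.SH.coe_TF]
      exact h1 hp
    exact this
  have h4 := card_le_card h3
  rw [TH387.SH.card_TF, h2] at h4
  exact h4

/-- emptiness in degree `e` at one configuration gives emptiness in all degrees up to `e` at general
points -/
theorem empty_open {n : ℕ} {w : Fin n → ℕ} {e : ℕ} (h : Emp w (TZ e)) :
    ∃ F : MvPolynomial (Fin n × Fin 2) ℚ, F ≠ 0 ∧ ∀ P : Fin n → Fin 2 → ℂ,
      MvPolynomial.aeval (fun ij : Fin n × Fin 2 => P ij.1 ij.2) F ≠ 0 →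
      ∀ d ≤ e, forms w P d = ⊥ := by
  obtain ⟨F, hF, hF'⟩ := Emp_open (TZ_finite e) (fun m hm => ⟨hm.1, hm.2.1⟩) h
  refine ⟨F, hF, fun P hP d hd => ?_⟩
  obtain ⟨h1, h2⟩ := hF' _ hP
  have hcast : castS (Tfin e) ⊆ TZ e := by
    rintro m ⟨p, hp, rfl⟩
    have : p ∈ Tset e := by rw [← coe_Tfin]; exact hp
    have h3 : p.1 + p.2 ≤ e := this
    exact ⟨by simp, by simp, by simp only; omega⟩
  have h3 : Pool.Agent.H932R2.RkI (vIdeal 1 w (fun a => P a 0) (fun a => Polynomial.C (P a 1)))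
      (Pool.Agent.H932R2.Tset e) (Pool.Agent.H932R2.Tfin e).card :=
    RkI_of_LM (fun i => h1 (i, 0)) (fun i => h1 (i, 1)) (by rw [coe_Tfin]) fun f hf hL =>
      h2 f (hf.trans hcast) hL
  have h4 := (NoForm.of_rk h3).mono hd
  rw [Submodule.eq_bot_iff]
  rintro G ⟨hG1, hG2⟩
  refine h4 G hG1 ?_
  rw [SetLike.mem_coe, Submodule.restrictScalars_mem, Ideal.mem_iInf] at hG2
  unfold vIdeal
  rw [Ideal.mem_iInf]
  exact fun i => (mem_ptIdeal_iff hG1).1 (hG2 i)

/-- **nonspecial systems with smooth general members, all numbers of points, all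
multiplicities** -/
theorem smooth_arb {n : ℕ} (w : Fin n → ℕ) :
    ∃ F : MvPolynomial (Fin n × Fin 2) ℂ, F ≠ 0 ∧ ∀ P : Fin n → Fin 2 → ℂ,
      MvPolynomial.eval (fun ij : Fin n × Fin 2 => P ij.1 ij.2) F ≠ 0 →
      (∀ d, Above w d → forms w P d = ⊥) ∧
      (∀ d, Below w d →
        Module.finrank ℂ ↥(forms w P d) + ∑ i, (w i + 1).choose 2 = (d + 2).choose 2) ∧
      (∀ d, Below w d → GeneralMember (forms w P (d + 1)) (SmoothMember w P)) := by
  classical
  obtain ⟨F, hF, hF'⟩ := expDim_arb w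
  obtain ⟨F2, hF2, hF2'⟩ : ∃ F : MvPolynomial (Fin n × Fin 2) ℚ, F ≠ 0 ∧
      ∀ P : Fin n → Fin 2 → ℂ,
        MvPolynomial.aeval (fun ij : Fin n × Fin 2 => P ij.1 ij.2) F ≠ 0 →
        ∀ d, Above w d → forms w P d = ⊥ := by
    by_cases hex : ∃ d, Above w d
    · obtain ⟨d0, hd0⟩ := hex
      have h1 := Nat.findGreatest_spec (P := Above w) (Above.le hd0) hd0
      obtain ⟨F, hF, hF'⟩ := empty_open (Above.emp h1)
      exact ⟨F, hF, fun P hP d hd => hF' P hP d (Nat.le_findGreatest (Above.le hd) hd)⟩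
    · exact ⟨1, one_ne_zero, fun P _ d hd => absurd ⟨d, hd⟩ hex⟩
  refine ⟨F.map (algebraMap ℚ ℂ) * F2.map (algebraMap ℚ ℂ) * disc ℂ n,
    mul_ne_zero (mul_ne_zero (map_ne_zero_of hF) (map_ne_zero_of hF2))
    (disc_ne ℂ n), fun P hP => ?_⟩
  rw [map_mul, map_mul, MvPolynomial.eval_map, MvPolynomial.eval_map] at hP
  have h1 := hF' P (left_ne_zero_of_mul (left_ne_zero_of_mul hP))
  have h2 : ∀ d, Below w d →
      Module.finrank ℂ ↥(forms w P d) + ∑ i, (w i + 1).choose 2 = (d + 2).choose 2 := by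
    intro d hd
    have h3 : Module.finrank ℂ ↥(forms w P d) = (d + 2).choose 2 - ∑ i, (w i + 1).choose 2 :=
      h1 d (Or.inr hd)
    have h4 := cond_le (Below.sur hd)
    omega
  exact ⟨hF2' P (right_ne_zero_of_mul (left_ne_zero_of_mul hP)), h2, fun d hd =>
    general_smooth (inj_of_disc (right_ne_zero_of_mul hP)) (h2 d hd).le⟩

end Pool.Agent.TH648.SH
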