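import Pool.Agent.TH603.EL.Key
import Pool.Agent.TH603.Sur.Uni

/-! Independence of conditions: from the triangles of real slope to the plane. -/

namespace Pool.Agent.TH648.SH

open Finset Pool.Agent.TH176.Nag Pool.Agent.TH603.Sur Pool.Agent.TH181.NagM

/-- the closed triangle of size `d` and slope `τ` -/
def TT (d : ℕ) (τ : ℝ) : Set (ℤ × ℤ) :=
  Reg (-((d : ℝ) * (1 + τ))) (d * (2 - τ)) (3 * (1 + τ)) (3 * (2 - τ))

/-- the number of integers in an interval of integral length with irrational ends -/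
theorem card_row {N : ℕ} (hN : 0 < N) {τ : ℝ} (hτ : Irrational τ) :
    (Finset.Icc ⌈-((N : ℝ) * (1 + τ))⌉ ⌊(N : ℝ) * (2 - τ)⌋).card ≤ 3 * N := by
  rw [Int.card_Icc]
  have hirr : Irrational (-((N : ℝ) * (1 + τ))) := by
    have h1 : Irrational (1 + τ) := by
      have := hτ.natCast_add 1
      simpa using this
    exact (h1.natCast_mul (by omega)).neg
  have e : (N : ℝ) * (2 - τ) = -((N : ℝ) * (1 + τ)) + ((3 * N : ℕ) : ℝ) := by push_cast; ring
  rw [e, Int.floor_add_natCast]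
  set x := -((N : ℝ) * (1 + τ)) with hx
  have h2 : ⌊x⌋ < ⌈x⌉ := by
    have h3 : (⌊x⌋ : ℝ) ≤ x := Int.floor_le x
    have h4 : x ≤ ⌈x⌉ := Int.le_ceil x
    have h5 : (⌊x⌋ : ℝ) ≠ x := fun h => hirr ⟨(⌊x⌋ : ℚ), by push_cast; exact h⟩
    have h6 : (⌊x⌋ : ℝ) < x := lt_of_le_of_ne h3 h5
    exact_mod_cast lt_of_lt_of_le h6 h4
  omega

theorem choose_step (d : ℕ) : (d + 3 + 2).choose 2 = (d + 2).choose 2 + 3 * (d + 3) := by
  have h1 := Nat.choose_two_right (d + 3 + 2)
  have h2 := Nat.choose_two_right (d + 2)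
  have e1 : (d + 3 + 2) * (d + 3 + 2 - 1) = (d + 2) * (d + 2 - 1) + 2 * (3 * (d + 3)) := by
    have a1 : d + 3 + 2 - 1 = d + 4 := by omega
    have a2 : d + 2 - 1 = d + 1 := by omega
    rw [a1, a2]; ring
  rw [e1] at h1
  omega

theorem TT_step (d : ℕ) (τ : ℝ) : TT (d + 3) τ ⊆
    (fun a : ℤ => ((a, 0) : ℤ × ℤ)) '' (Set.Icc ⌈-(((d + 3 : ℕ) : ℝ) * (1 + τ))⌉ ⌊((d + 3 : ℕ) : ℝ) * (2 - τ)⌋) ∪
      (fun p : ℤ × ℤ => (p.1, p.2 + 1)) '' TT d τ := by
  rintro ⟨a, b⟩ ⟨h1, h2, h3⟩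
  simp only at h1 h2 h3
  rcases h1.eq_or_lt with h0 | h0
  · left
    refine ⟨a, ⟨?_, ?_⟩, by rw [h0]⟩
    · apply Int.ceil_le.2
      rw [← h0] at h2
      simpa using h2
    · apply Int.le_floor.2
      rw [← h0] at h3
      simpa using h3
  · right
    refine ⟨(a, b - 1), ⟨by simp only; omega, ?_, ?_⟩, by simp⟩
    · simp only
      push_cast at h2 ⊢
      linarith
    · simp only
      push_cast at h3 ⊢
      linarith

theorem exists_TT {τ : ℝ} (hτ : Irrational τ) : ∀ d : ℕ, ∃ T : Finset (ℤ × ℤ),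
    TT d τ ⊆ ↑T ∧ T.card ≤ (d + 2).choose 2 := by
  classical
  have small : ∀ d : ℕ, 0 < d → d < 3 → ∃ T : Finset (ℤ × ℤ),
      TT d τ ⊆ ↑T ∧ T.card ≤ 3 * d := by
    intro d hd hd3
    refine ⟨(Finset.Icc ⌈-((d : ℝ) * (1 + τ))⌉ ⌊(d : ℝ) * (2 - τ)⌋).image (fun a => ((a, 0) : ℤ × ℤ)),
      ?_, card_image_le.trans (card_row hd hτ)⟩
    rintro ⟨a, b⟩ ⟨h1, h2, h3⟩
    simp only at h1 h2 h3
    have hb : b = 0 := by
      by_contra hne
      have hb1 : (1 : ℤ) ≤ b := by omega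
      have hb1' : (1 : ℝ) ≤ b := by exact_mod_cast hb1
      have hd' : (d : ℝ) < 3 := by exact_mod_cast hd3
      have h4 : (0 : ℝ) ≤ 3 * d - 9 * b := by linarith
      linarith
    subst hb
    rw [Finset.coe_image]
    refine ⟨a, ?_, rfl⟩
    rw [Finset.coe_Icc]
    refine ⟨Int.ceil_le.2 ?_, Int.le_floor.2 ?_⟩
    · simpa using h2
    · simpa using h3
  intro d
  induction d using Nat.strong_induction_on with
  | _ d ih =>
    rcases Nat.lt_or_ge d 3 with h | h
    · rcases Nat.eq_zero_or_pos d with h0 | h0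
      · subst h0
        refine ⟨{(0, 0)}, ?_, by simp⟩
        rintro ⟨a, b⟩ ⟨h1, h2, h3⟩
        simp only [Nat.cast_zero, zero_mul, neg_zero] at h1 h2 h3
        have hb : b = 0 := by
          by_contra hne
          have hb1 : (1 : ℤ) ≤ b := by omega
          have hb1' : (1 : ℝ) ≤ b := by exact_mod_cast hb1
          linarith
        subst hb
        have ha : a = 0 := by
          have h4 : (0 : ℝ) ≤ a := by simpa using h2
          have h5 : (a : ℝ) ≤ 0 := by simpa using h3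
          have h6 : (0 : ℤ) ≤ a := by exact_mod_cast h4
          have h7 : a ≤ (0 : ℤ) := by exact_mod_cast h5
          omega
        subst ha
        simp
      · obtain ⟨T, hT1, hT2⟩ := small d h0 h
        refine ⟨T, hT1, hT2.trans ?_⟩
        interval_cases d <;> decide
    · obtain ⟨e, rfl⟩ : ∃ e, d = e + 3 := ⟨d - 3, by omega⟩
      obtain ⟨T, hT1, hT2⟩ := ih e (by omega)
      refine ⟨(Finset.Icc ⌈-(((e + 3 : ℕ) : ℝ) * (1 + τ))⌉ ⌊((e + 3 : ℕ) : ℝ) * (2 - τ)⌋).image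
        (fun a => ((a, 0) : ℤ × ℤ)) ∪ T.image (fun p => (p.1, p.2 + 1)), ?_, ?_⟩
      · refine (TT_step e τ).trans ?_
        rw [Finset.coe_union, Finset.coe_image, Finset.coe_image, Finset.coe_Icc]
        exact Set.union_subset_union subset_rfl (Set.image_mono hT1)
      · have h1 := card_row (N := e + 3) (by omega) hτ
        have h2 := choose_step e
        refine (card_union_le _ _).trans ?_
        have h3 := (card_image_le (s := Finset.Icc ⌈-(((e + 3 : ℕ) : ℝ) * (1 + τ))⌉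
          ⌊((e + 3 : ℕ) : ℝ) * (2 - τ)⌋) (f := fun a => ((a, 0) : ℤ × ℤ)))
        have h4 := (card_image_le (s := T) (f := fun p : ℤ × ℤ => (p.1, p.2 + 1)))
        omega

theorem card_TZ (d : ℕ) : (d + 2).choose 2 ≤ (TZ_finite d).toFinset.card := by
  classical
  have h1 := Pool.Agent.H932R2.card_Tfin d
  have h2 : (Pool.Agent.H932R2.Tfin d).card ≤ (TZ_finite d).toFinset.card := by
    refine Finset.card_le_card_of_injOn (fun p : ℕ × ℕ => ((p.1 : ℤ), (p.2 : ℤ))) ?_ ?_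
    · intro p hp
      rw [Set.Finite.coe_toFinset]
      have h3 : p ∈ Pool.Agent.H932R2.Tset d := by
        rw [← Pool.Agent.H932R2.coe_Tfin]; exact hp
      have h4 : p.1 + p.2 ≤ d := h3
      exact ⟨by simp, by simp, by simp only; omega⟩
    · intro p _ q _ h
      simp only [Prod.mk.injEq, Nat.cast_inj] at h
      exact Prod.ext h.1 h.2
  have h3 := Nat.choose_two_right (d + 2)
  have e : (d + 2) * (d + 2 - 1) = (d + 1) * (d + 2) := by
    have : d + 2 - 1 = d + 1 := by omega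
    rw [this]; ring
  rw [e] at h3
  omega

/-- **the key lemma for independence** -/
theorem Sur_key {ι : Type} [Fintype ι] {w : ι → ℕ} {d : ℕ} {τ : ℝ} (h0 : 0 < τ) (h1 : τ < 1)
    (hτ : Irrational τ) (h : Sur w (TT d τ)) : Sur w (TZ d) := by
  classical
  obtain ⟨T, hT1, hT2⟩ := exists_TT hτ d
  have hfin : (TT d τ).Finite := T.finite_toSet.subset hT1
  rw [← hfin.coe_toFinset] at h
  rw [← (TZ_finite d).coe_toFinset]
  refine Sur.transfer ?_ (fun κ v h => ?_) h
  · refine le_trans ?_ (card_TZ d)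
    refine le_trans (Finset.card_le_card ?_) hT2
    intro p hp
    rw [Set.Finite.mem_toFinset] at hp
    exact hT1 hp
  · rw [(TZ_finite d).coe_toFinset]
    rw [hfin.coe_toFinset] at h
    exact Pool.Agent.TH603.EL.Emp_key h0 h1 h

theorem Sur_keyO {ι : Type} [Fintype ι] {w : ι → ℕ} {d : ℕ} {τ : ℝ} (h0 : 0 < τ) (h1 : τ < 1)
    (hτ : Irrational τ)
    (h : Sur w (RegO (-(((d : ℝ) + 3) * (1 + τ))) (((d : ℝ) + 3) * (2 - τ)) (3 * (1 + τ)) (3 * (2 - τ)))) :
    Sur w (TZ d) := by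
  apply Sur_key h0 h1 hτ
  refine h.shift 0 1 ?_
  rintro ⟨a, b⟩ ⟨hb, hl, hr⟩
  simp only at hb hl hr
  refine ⟨by simp only; omega, ?_, ?_⟩
  · simp only
    push_cast
    linarith
  · simp only
    push_cast
    linarith

end Pool.Agent.TH648.SH
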